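import Pool.Agent.H20.MIC.UniD
import Pool.Agent.H20.MIC.Fru
import Pool.Agent.H46.MicA.Stm

/-!
# The own leaf and the label; two radii

`uniOwn_thm : UniOwnStmt`, `uniRad_thm : UniRadStmt`. Tool: `line_box`, the two sides of the labels
of a cell agree on multiples of the natural box of the line side.
-/

set_option autoImplicit false

namespace Pool.MicA.UniP

open Finset MvPolynomial
open Pool.Agent.H49.Ent Pool.Agent.H32.Dense Pool.STK Pool.STAT Pool.MIC Pool.MIC.Frm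
open Pool.BFL (Pl Pb)
open Pool.MIC.Fru (gw atT_tri atT_deg nat_gw nat_gw0)

/-- **The two sides of the labels agree** on multiples of the natural box of the line side. -/
theorem line_box (n K : ℕ) (B : ℝ) (hB : 1 ≤ B) : ∃ C : ℝ, 1 ≤ C ∧
    ∀ (J a₀ w₀ z M : ℕ) (lam gam : ℕ → ℝ) (κ C₁ : ℝ) (D : NDat2) (q : D.Ω → ℝ),
      D.Ok2 n K J a₀ w₀ z M lam gam κ C₁ q → ∀ i ≤ M, ∀ j ≤ M, ∀ ω, 0 < q ω →
      ∀ l ≤ n, ∀ b : ℕ → ℝ, |b 0 - D.X ω 0| ≤ B / 2 ^ (a₀ + i * z) →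
      (∀ r, 1 ≤ r → r < l → |nat (D.g i j) (D.Φ i j ω) b r| ≤ B) →
      (∀ r, 1 ≤ r → r < l → |nat (D.g i j) (D.Ψ i j ω) b r| ≤ C) ∧
        (1 ≤ l → |eval b (D.Ψ i j ω l) - eval b (D.Φ i j ω l)| ≤ C / 2 ^ D.g i j l) := by
  obtain ⟨C, hC, h⟩ := Frm.agree n K B hB
  refine ⟨C, hC, ?_⟩
  intro J a₀ w₀ z M lam gam κ C₁ D q hO i hi j hj ω hω l hl b hb0 hb
  have tP : TriN (D.Φ i j ω) := hO.P_tri i j _
  have tG : TriN (D.Ψ i j ω) := hO.G_tri i j _
  have key := h (gw (a₀ + i * z) (D.g i j)) (atT (D.X ω 0) (D.Ψ i j ω))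
    (atT (D.X ω 0) (D.Φ i j ω)) (atT_tri tG _) (atT_tri tP _)
    (fun k hk => atT_deg (m := n + 1) (fun k _ => hO.G_deg i j _ k) _ k (by omega))
    (fun k hk => atT_deg (m := n + 1) (fun k _ => hO.P_deg i j _ k) _ k (by omega)) ?_ ?_ l hl b ?_
  · obtain ⟨k1, k2⟩ := key
    refine ⟨fun r hr hr' => ?_, fun hl1 => ?_⟩
    · have := k1 r hr'
      rwa [nat_gw b hr] at this
    · unfold atT gw at k2
      rwa [Function.update_of_ne (by omega), Function.update_of_ne (by omega),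
        Function.update_of_ne (by omega)] at k2
  · unfold atT
    rw [Function.update_self, Function.update_self]
  · intro l' hl' hln' b' hb'
    have e1 := hb' 0 (by omega)
    rw [nat_gw0] at e1
    have e2 := hO.agr i hi j hj ω hω l' hl' hln' b' ⟨by
      rw [abs_mul, abs_of_pos (by positivity)] at e1
      rw [le_div_iff₀ (by positivity)]
      linarith, fun k hk hk' => by
      have e3 := hb' k hk'
      rw [nat_gw b' hk] at e3
      unfold nat at e3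
      rw [abs_mul, abs_of_pos (by positivity)] at e3
      rw [le_div_iff₀ (by positivity)]
      linarith⟩
    unfold atT gw
    rw [Function.update_of_ne (by omega), Function.update_of_ne (by omega),
      Function.update_of_ne (by omega)]
    exact e2
  · intro r hr
    rcases Nat.eq_zero_or_pos r with rfl | hr'
    · rw [nat_gw0, abs_mul, abs_of_pos (by positivity)]
      rw [le_div_iff₀ (by positivity)] at hb0
      linarith
    · rw [nat_gw b hr']
      exact hb r hr' hr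

/-- Exponentials absorb constants. -/
theorem exp_abs {ε : ℝ} (hε : 0 < ε) (C : ℝ) : ∃ z₀ : ℕ, ∀ z : ℕ, z₀ ≤ z →
    Real.exp (ε / 2 * z) + C ≤ Real.exp (ε * z) := by
  obtain ⟨z₁, hz₁⟩ := exists_nat_ge ((1 + |C|) * (2 / ε))
  refine ⟨z₁, fun z hz => ?_⟩
  have e1 : (z₁ : ℝ) ≤ z := by exact_mod_cast hz
  have e2 := hz₁.trans e1
  have e3 : 1 + |C| ≤ ε / 2 * z := by
    have := mul_le_mul_of_nonneg_left e2 (by positivity : 0 ≤ ε / 2)
    have e4 : ε / 2 * ((1 + |C|) * (2 / ε)) = 1 + |C| := by field_simp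
    linarith
  have e5 := Real.add_one_le_exp (ε / 2 * z)
  have e6 : Real.exp (ε * z) = Real.exp (ε / 2 * z) * Real.exp (ε / 2 * z) := by
    rw [← Real.exp_add]
    congr 1
    ring
  have e7 := le_abs_self C
  have e8 := abs_nonneg C
  rw [e6]
  nlinarith

/-- **The own leaf and the label** of the target agree on the natural box, from fullness of the
base given the own label. -/
theorem uniOwn_ful (n K : ℕ) (R ε e : ℝ) (hn : 1 ≤ n) (hR : 1 ≤ R) (hε : 0 < ε) (he : 0 < e) :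
    ∃ (κ₀ : ℝ) (z₀ : ℕ), 0 < κ₀ ∧
    ∀ (J a₀ w₀ z M i j i' j' r : ℕ) (lam gam : ℕ → ℝ) (κ C₁ : ℝ) (D : NDat2) (q : D.Ω → ℝ),
      z₀ ≤ z → i ≤ M → j ≤ M → i' ≤ M → j' ≤ M → z ≤ r → D.g i j n ≤ D.g i' j' n →
      D.Ok2 n K J a₀ w₀ z M lam gam κ C₁ q →
      UniD.Ful D n i j r (κ₀ * z) q (fun ω => (D.s i' j' ω, (D.c i j ω, D.T ω))) →
      Pb q (fun ω => ¬ ∀ b : ℕ → ℝ, b 0 = D.X ω 0 →
        (∀ r, 1 ≤ r → r < n → |nat (D.g i j) (D.Φ i j ω) b r| ≤ R) →
        |eval b (D.Ψ i' j' ω n) - eval b (D.Φ i j ω n)| ≤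
          Real.exp (ε * z) / 2 ^ D.g i j n) ≤ e := by
  obtain ⟨C, hC, hbox⟩ := line_box n K R hR
  obtain ⟨z₁, hz₁⟩ := exp_abs (ε := min ε 1) (by positivity) C
  obtain ⟨κ₀, z₀, hκ₀, h⟩ := UniD.uni2 n K C (min ε 1 / 2) (min e 1) (by linarith)
    (by positivity) (by have := min_le_right ε 1; linarith) (by positivity) (min_le_right _ _)
  refine ⟨κ₀, max z₀ z₁, hκ₀, ?_⟩
  intro J a₀ w₀ z M i j i' j' r lam gam κ C₁ D q hz hi hj hi' hj' hr hgn hO hful
  refine le_trans (Pb_supp hO.isLaw.nonneg fun ω hω hb => ?_)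
    ((h J a₀ w₀ z M lam gam κ C₁ D q ((le_max_left _ _).trans hz) hO i' j' i j r hi' hj'
      hi hj hr hful n hn le_rfl).trans (min_le_left _ _))
  intro hc
  refine hb fun b b0 b1 => ?_
  obtain ⟨k1, k2⟩ := hbox J a₀ w₀ z M lam gam κ C₁ D q hO i hi j hj ω hω n le_rfl b
    (by rw [b0, sub_self, abs_zero]; positivity) b1
  have e1 := hc b b0 (fun k hk hk' => by
    have := k1 k hk hk'
    unfold nat at this
    rw [abs_mul, abs_of_pos (by positivity)] at this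
    rw [le_div_iff₀ (by positivity)]
    linarith)
  rw [min_eq_right hgn] at e1
  have e2 := k2 hn
  have e3 : eval b (D.Ψ i' j' ω n) - eval b (D.Φ i j ω n) =
      (eval b (D.Ψ i' j' ω n) - eval b (D.Ψ i j ω n)) +
        (eval b (D.Ψ i j ω n) - eval b (D.Φ i j ω n)) := by ring
  rw [e3]
  refine (abs_add_le _ _).trans ?_
  have e4 := hz₁ z ((le_max_right _ _).trans hz)
  have e5 : Real.exp (min ε 1 * z) ≤ Real.exp (ε * z) := by
    refine Real.exp_le_exp.2 (mul_le_mul_of_nonneg_right (min_le_left _ _) (Nat.cast_nonneg z))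
  calc |eval b (D.Ψ i' j' ω n) - eval b (D.Ψ i j ω n)| +
        |eval b (D.Ψ i j ω n) - eval b (D.Φ i j ω n)|
      ≤ Real.exp (min ε 1 / 2 * z) / 2 ^ D.g i j n + C / 2 ^ D.g i j n := add_le_add e1 e2
    _ = (Real.exp (min ε 1 / 2 * z) + C) / 2 ^ D.g i j n := by ring
    _ ≤ Real.exp (ε * z) / 2 ^ D.g i j n :=
        div_le_div_of_nonneg_right (e4.trans e5) (by positivity)

theorem uniOwn_thm : UniOwnStmt := by
  intro n K lam gam C₁ R ε e hn hC₁ hR hε he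
  obtain ⟨κ₀, z₀, hκ₀, h⟩ := uniOwn_ful n K R ε e hn hR hε he
  refine ⟨κ₀, z₀, hκ₀, ?_⟩
  intro J a₀ w₀ z M i j i' j' D q hz hi hj hi' hj' hfat hgn hO hV
  exact h J a₀ w₀ z M i j i' j' (1 * z) lam gam κ₀ C₁ D q hz hi.le hj hi' hj' (by omega) hgn hO
    (UniD.ful_of_llv hV hO.isLaw.nonneg le_rfl (by omega) hj hi' hj' hfat)

/-- The contexts of one window are nested. -/
theorem c_chain {D : NDat2} {n K J a₀ w₀ z M : ℕ} {lam gam : ℕ → ℝ} {κ C₁ : ℝ} {q : D.Ω → ℝ}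
    (hO : D.Ok2 n K J a₀ w₀ z M lam gam κ C₁ q) {i₁ i₂ j : ℕ} (h1 : i₁ ≤ i₂) (h2 : i₂ ≤ M)
    (hj : j ≤ M) : Det q (D.c i₂ j) (D.c i₁ j) := by
  induction i₂, h1 using Nat.le_induction with
  | base => exact fun _ _ _ _ h => h
  | succ i hi ih =>
    intro ω ω' a b h
    exact ih (by omega) ω ω' a b (hO.c_i i (by omega) j hj ω ω' a b h)

theorem uniRad_thm : UniRadStmt := by
  intro n K lam gam C₁ R ε e hn hC₁ hR hε he
  obtain ⟨C, hC, hbox⟩ := line_box n K R hR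
  obtain ⟨z₁, hz₁⟩ := exp_abs (ε := min ε 1) (by positivity) 0
  have hn0 : (0 : ℝ) < n := by exact_mod_cast hn
  have hη : 0 < min e 1 / n := by positivity
  have hη1 : min e 1 / n ≤ 1 := by
    rw [div_le_one hn0]
    have : (1 : ℝ) ≤ n := by exact_mod_cast hn
    exact (min_le_right _ _).trans this
  obtain ⟨κ₀, z₀, hκ₀, h⟩ := UniD.uni_gen n K C (min ε 1 / 2) (min e 1 / n) (by linarith)
    (by positivity) (by have := min_le_right ε 1; linarith) hη hη1
  obtain ⟨z₂, hz₂⟩ := exists_nat_ge (2 * (2 / min ε 1))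
  refine ⟨κ₀, max z₀ (max z₁ z₂), hκ₀, ?_⟩
  intro J a₀ w₀ z M i₁ i₂ j D q hz h12 hi₂ hj hg hO
  have hq := hO.isLaw
  have hexp : Real.exp (min ε 1 / 2 * z) * 2 ≤ Real.exp (ε * z) := by
    have e1 : (z₂ : ℝ) ≤ z := by
      exact_mod_cast (le_max_right _ _).trans ((le_max_right _ _).trans hz)
    have e2 := hz₂.trans e1
    have e3 : 2 ≤ min ε 1 / 2 * z := by
      have hm : 0 < min ε 1 := by positivity
      have := mul_le_mul_of_nonneg_left e2 (by positivity : 0 ≤ min ε 1 / 2)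
      have e4 : min ε 1 / 2 * (2 * (2 / min ε 1)) = 2 := by field_simp
      linarith
    have e5 := Real.add_one_le_exp (min ε 1 / 2 * z)
    have e6 : Real.exp (min ε 1 / 2 * z) * 2 ≤
        Real.exp (min ε 1 / 2 * z) * Real.exp (min ε 1 / 2 * z) :=
      mul_le_mul_of_nonneg_left (by linarith) (Real.exp_pos _).le
    refine e6.trans ?_
    rw [← Real.exp_add]
    refine Real.exp_le_exp.2 ?_
    have e7 : min ε 1 * (z : ℝ) ≤ ε * z :=
      mul_le_mul_of_nonneg_right (min_le_left _ _) (Nat.cast_nonneg z)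
    linarith
  have hful : UniD.Ful D n i₂ j (1 * z) (κ₀ * z) q (fun ω => (D.c i₂ j ω, D.T ω)) := by
    have := hO.full i₂ hi₂.le j hj 1 (by omega)
    unfold UniD.Ful
    push_cast at this ⊢
    linarith
  have one : ∀ l, 1 ≤ l → l ≤ n → Pb q (fun ω => ¬ ∀ b : ℕ → ℝ, b 0 = D.X ω 0 →
        (∀ r, 1 ≤ r → r < l → |nat (D.g i₂ j) (D.Φ i₂ j ω) b r| ≤ R) →
        |eval b (D.Φ i₂ j ω l) - eval b (D.Φ i₁ j ω l)| ≤
          Real.exp (ε * z) / 2 ^ D.g i₁ j l) ≤ min e 1 / n := by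
    intro l hl hln
    refine le_trans (Pb_supp hq.nonneg fun ω hω hb => ?_)
      (h D q J i₂ j z (1 * z) l _ (fun ω => (D.c i₂ j ω, D.T ω))
        (fun ω => D.Φ i₂ j ω l - D.Φ i₁ j ω l) (2 / 2 ^ D.g i₁ j l)
        ((le_max_left _ _).trans hz) (by omega) hq hO.X_zero ?_ ?_ ?_ (hO.G_deg i₂ j)
        (hO.G_tri i₂ j) hl hln ?_ ?_ (by positivity) (hO.pos i₂ hi₂.le j hj) hful ?_)
    · intro hc
      refine hb fun b b0 b1 => ?_
      obtain ⟨k1, -⟩ := hbox J a₀ w₀ z M lam gam κ₀ C₁ D q hO i₂ hi₂.le j hj ω hω l hln b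
        (by rw [b0, sub_self, abs_zero]; positivity) b1
      have e1 := hc b b0 (fun k hk hk' => by
        have := k1 k hk hk'
        unfold nat at this
        rw [abs_mul, abs_of_pos (by positivity)] at this
        rw [le_div_iff₀ (by positivity)]
        linarith)
      rw [map_sub, mul_div_assoc'] at e1
      exact e1.trans (div_le_div_of_nonneg_right hexp (by positivity))
    · intro ω ω' _ _ hy
      exact (Prod.ext_iff.1 hy).2
    · intro ω ω' a b hy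
      exact hO.s_c i₂ hi₂.le j hj ω ω' a b hy
    · intro ω ω' a b hy
      have e1 : D.c i₂ j ω = D.c i₂ j ω' := (Prod.ext_iff.1 hy).1
      have e2 : D.c i₁ j ω = D.c i₁ j ω' := c_chain hO h12 hi₂.le hj ω ω' a b e1
      unfold NDat2.Φ
      simp only
      rw [e1, e2]
    · intro ω _
      exact AdxRow.vars_sub_le (hO.P_tri i₂ j _ l) (hO.P_tri i₁ j _ l)
    · intro ω _
      exact (totalDegree_sub _ _).trans (max_le (hO.P_deg i₂ j _ l) (hO.P_deg i₁ j _ l))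
    · intro ω hω
      have e1 := hO.hgt i₂ hi₂.le j hj ω hω l hln
      have e2 := hO.hgt i₁ (by omega) j hj ω hω l hln
      have e3 : (1 : ℝ) / 2 ^ D.g i₂ j l ≤ 1 / 2 ^ D.g i₁ j l :=
        one_div_le_one_div_of_le (by positivity) (pow_le_pow_right₀ (by norm_num) (hg l hl hln))
      unfold NDat2.rh at e1 e2
      rw [map_sub]
      have e4 : eval (D.X ω) (D.Φ i₂ j ω l) - eval (D.X ω) (D.Φ i₁ j ω l) =
          (D.X ω l - eval (D.X ω) (D.Φ i₁ j ω l)) - (D.X ω l - eval (D.X ω) (D.Φ i₂ j ω l)) := by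
        ring
      rw [e4]
      refine (abs_sub _ _).trans ?_
      have e5 : (2 : ℝ) / 2 ^ D.g i₁ j l = 1 / 2 ^ D.g i₁ j l + 1 / 2 ^ D.g i₁ j l := by ring
      rw [e5]
      linarith
  -- the union
  have h1 : Pb q (fun ω => ¬ ∀ l, 1 ≤ l → l ≤ n → ∀ b : ℕ → ℝ, b 0 = D.X ω 0 →
        (∀ r, 1 ≤ r → r < l → |nat (D.g i₂ j) (D.Φ i₂ j ω) b r| ≤ R) →
        |eval b (D.Φ i₂ j ω l) - eval b (D.Φ i₁ j ω l)| ≤
          Real.exp (ε * z) / 2 ^ D.g i₁ j l) ≤
      Pb q (fun ω => ∃ k : Fin n, ¬ ∀ b : ℕ → ℝ, b 0 = D.X ω 0 →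
        (∀ r, 1 ≤ r → r < (k : ℕ) + 1 → |nat (D.g i₂ j) (D.Φ i₂ j ω) b r| ≤ R) →
        |eval b (D.Φ i₂ j ω ((k : ℕ) + 1)) - eval b (D.Φ i₁ j ω ((k : ℕ) + 1))| ≤
          Real.exp (ε * z) / 2 ^ D.g i₁ j ((k : ℕ) + 1)) := by
    refine Pb_supp hq.nonneg fun ω hω hb => ?_
    by_contra hc
    push Not at hc
    refine hb fun l hl hln => ?_
    have := hc ⟨l - 1, by omega⟩
    simp only at this
    rwa [show l - 1 + 1 = l by omega] at this
  refine h1.trans ((Pb_exists_le hq.nonneg _).trans ?_)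
  refine (Finset.sum_le_sum (g := fun _ : Fin n => min e 1 / n) fun (k : Fin n) _ =>
    one ((k : ℕ) + 1) (by omega) (by have := k.2; omega)).trans ?_
  rw [Finset.sum_const, Finset.card_univ, Fintype.card_fin, nsmul_eq_mul,
    mul_div_cancel₀ _ hn0.ne']
  exact min_le_left _ _

end Pool.MicA.UniP
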